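import Pool.Agent.H221.TW.Stm

/-!
Project TW (helper221): the Minkowski centre in three parts.
-/

set_option autoImplicit false

namespace Pool.Agent.H221.TW

open Pool.Agent.H332.HT (V2 V3)

/-- MIN3: Minkowski's theorem -/
def S_min3 : Prop := ∀ K : Set V3, IsCompact K → Convex ℝ K → K.Nonempty →
  ∃ p ∈ K, ∀ y ∈ K, p - (1 / (3 : ℝ)) • (y - p) ∈ K

/-- OPT: an optimal centre exists and is an interior point -/
def S_opt : Prop := S_min3 → ∀ K : Set V3, IsCompact K → Convex ℝ K → (interior K).Nonempty →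
  ∃ (o : V3) (lam : ℝ), o ∈ interior K ∧ 1 ≤ lam ∧ lam ≤ 3 ∧
    (∀ y ∈ K, o - (1 / lam) • (y - o) ∈ K) ∧
    ∀ (o' : V3) (lam' : ℝ), 1 ≤ lam' → (∀ y ∈ K, o' - (1 / lam') • (y - o') ∈ K) → lam ≤ lam'

/-- TCH: at an optimal centre the touching normals have `0` in their convex hull -/
def S_tch : Prop := ∀ (K : Set V3) (lam : ℝ), IsCompact K → Convex ℝ K → (0 : V3) ∈ interior K →
  1 ≤ lam → lam ≤ 3 → (∀ y ∈ K, -((1 / lam) • y) ∈ K) →
  (∀ (o' : V3) (lam' : ℝ), 1 ≤ lam' → (∀ y ∈ K, o' - (1 / lam') • (y - o') ∈ K) → lam ≤ lam') →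
  ∃ (n : Fin 4 → V3 →ₗ[ℝ] ℝ) (a : Fin 4 → ℝ), MC K lam n a

theorem cen_of (h3 : S_min3) (ho : S_opt) (ht : S_tch) : S_cen := by
  intro K hK hKc hKi
  obtain ⟨o, lam, hoi, h1, h2, hc, hm⟩ := ho h3 K hK hKc hKi
  refine ⟨o, lam, ?_⟩
  have himg : (fun x : V3 => x - o) '' K = (Homeomorph.addRight (-o)) '' K := by
    ext x
    simp [sub_eq_add_neg]
  apply ht
  · exact hK.image (continuous_id.sub continuous_const)
  · have hK2 := hKc.translate (-o)
    have e0 : (fun x : V3 => x - o) '' K = (fun x : V3 => -o + x) '' K := by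
      apply Set.image_congr
      intro x _
      abel
    rw [e0]
    exact hK2
  · rw [himg, ← Homeomorph.image_interior]
    exact ⟨o, hoi, by simp⟩
  · exact h1
  · exact h2
  · rintro _ ⟨y, hy, rfl⟩
    refine ⟨_, hc y hy, ?_⟩
    simp
  · intro o' lam' h1' hc'
    refine hm (o' + o) lam' h1' fun y hy => ?_
    obtain ⟨z, hz, hz'⟩ := hc' (y - o) ⟨y, hy, rfl⟩
    have : o' + o - (1 / lam') • (y - (o' + o)) = z := by
      have e1 : z = o' - (1 / lam') • (y - o - o') + o := by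
        rw [← hz']; simp
      rw [e1, show y - (o' + o) = y - o - o' by abel]
      abel
    rw [this]
    exact hz

end Pool.Agent.H221.TW
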