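import Pool.Agent.H221.TW.Gen
import Pool.Agent.H221.TW.Cen
import Pool.Agent.H165.TW.Pair
import Pool.Agent.H165.TW.Opt
import Pool.Agent.H179.TW.Tra
import Pool.Agent.H179.TW.Bic
import Pool.Agent.H179.TW.B
import Pool.Agent.H292.TW.Ax
import Pool.Agent.H292.TW.Min
import Pool.Agent.H490.TW.Tch
import Pool.Agent.H496.TW.PartA

/-!
Project TW (helper221): twelve directions for every convex body of `ℝ³`, from the three-arc lemma
and the planar lemma.
-/

set_option autoImplicit false

namespace Pool.Agent.H221.TW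

theorem cen : S_cen :=
  cen_of Pool.Agent.H292.TW.min3 Pool.Agent.H165.TW.opt Pool.Agent.H490.TW.tch

theorem final (hch3 : S_ch3) (hplanar : S_planarG) (K : Set (EuclideanSpace ℝ (Fin 3)))
    (hK : Convex ℝ K) (hKc : IsCompact K) (hKi : (interior K).Nonempty) :
    ∃ T : Finset (EuclideanSpace ℝ (Fin 3)), T.card ≤ 12 ∧
      K ⊆ ⋃ t ∈ T, (fun x => t + x) '' interior K :=
  Pool.Agent.H179.TW.fin
    (main cen Pool.Agent.H292.TW.plc Pool.Agent.H496.TW.partA Pool.Agent.H179.TW.B
      Pool.Agent.H292.TW.ax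
      (caseIG Pool.Agent.H165.TW.pair hch3 Pool.Agent.H179.TW.bic hplanar Pool.Agent.H179.TW.par
        Pool.Agent.H179.TW.bas Pool.Agent.H179.TW.red)
      Pool.Agent.H179.TW.tra)
    K hK hKc hKi

end Pool.Agent.H221.TW
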