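import Pool.Agent.H221.TW.Stm
import Pool.Agent.H179.HW.Red

/-!
Project TW (helper221): the basic facts, from helper179's reduction.
-/

set_option autoImplicit false

namespace Pool.Agent.H221.TW

open Pool.Agent.H332.HT (V2 V3 det P IP T C Full Good Bi)
open Pool.Agent.H165.HW (GB Par)

theorem bas : S_bas := by
  intro K hK
  exact ⟨hK.cpt.image continuous_fst, Pool.Agent.H179.HW.cvxP hK, Pool.Agent.H179.HW.zeroIP hK,
    fun p hp => Pool.Agent.H179.HW.fib hK p hp, Pool.Agent.H179.HW.image_int K⟩

theorem par : S_par := by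
  intro K hK
  obtain ⟨r, q, h1, h2, h3, h4⟩ := Pool.Agent.H179.HW.par hK
  exact ⟨q, r, h1, h2, h3, h4⟩

theorem opn : S_opn := fun K hK q hq a b hab h => Pool.Agent.H179.HW.good_open hK hq a b hab h

theorem pt : S_pt := fun K hK q hq t h => Pool.Agent.H179.HW.good_pt hK hq t h

theorem red : S_red := by
  intro K hK q hq hfull t₀ hno
  exact Pool.Agent.H179.HW.reduction hK hq 10 (by norm_num) hfull t₀ hno

end Pool.Agent.H221.TW
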