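import Pool.Agent.H221.TW.Stm

/-!
Project TW (helper221): two bichromatic arcs which do not touch.
-/

set_option autoImplicit false

namespace Pool.Agent.H221.TW

open Pool.Agent.H332.HT (V2 V3 det P IP T C Full Good Bi)
open Pool.Agent.H165.HW (GB Par)

theorem bic_zero {K : Set V3} {q : ℝ → V2} (hq : Par K q) (m : V2 →ₗ[ℝ] ℝ)
    (h1 : ∀ p : V2, ((p, 1) : V3) ∈ K → p ∉ IP K → m p ≤ 0)
    (h2 : ∀ p : V2, ((p, -1) : V3) ∈ K → p ∉ IP K → 0 ≤ m p) (a b : ℝ)
    (hB : Bi K q a b) : ∃ t, a ≤ t ∧ t ≤ b ∧ m (q t) = 0 := by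
  obtain ⟨⟨t, ht1, ht2, ht⟩, ⟨s, hs1, hs2, hs⟩⟩ := hB
  have hcont : Continuous fun x => m (q x) :=
    (LinearMap.continuous_of_finiteDimensional m).comp hq.cont
  have i1 : m (q t) ≤ 0 := h1 _ ht (hq.nint t)
  have i2 : 0 ≤ m (q s) := h2 _ hs (hq.nint s)
  have hpre : IsPreconnected (Set.Icc a b) := isPreconnected_Icc
  obtain ⟨u, hu, hu0⟩ := hpre.intermediate_value (a := t) (b := s) ⟨ht1, ht2⟩ ⟨hs1, hs2⟩
    hcont.continuousOn ⟨i1, i2⟩
  exact ⟨u, hu.1, hu.2, hu0⟩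

theorem det_zero_of (m : V2 →ₗ[ℝ] ℝ) (hm : m ≠ 0) (x y : V2) (hx : m x = 0) (hy : m y = 0) :
    det x y = 0 := by
  have hrep : ∀ v : V2, m v = v.1 * m (1, 0) + v.2 * m (0, 1) := by
    intro v
    have : v = v.1 • ((1, 0) : V2) + v.2 • ((0, 1) : V2) := by
      ext <;> simp
    conv_lhs => rw [this]
    rw [map_add, map_smul, map_smul, smul_eq_mul, smul_eq_mul]
  rw [hrep] at hx hy
  by_contra hne
  have e1 : m (1, 0) = 0 := by
    have : det x y * m (1, 0) = 0 := by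
      unfold det
      linear_combination y.2 * hx - x.2 * hy
    exact (mul_eq_zero.1 this).resolve_left hne
  have e2 : m (0, 1) = 0 := by
    have : det x y * m (0, 1) = 0 := by
      unfold det
      linear_combination x.1 * hy - y.1 * hx
    exact (mul_eq_zero.1 this).resolve_left hne
  apply hm
  refine LinearMap.ext fun v => ?_
  rw [hrep, e1, e2]
  simp

theorem bic : S_bic := by
  intro K _ hsep q hq a b c d hab hbc hcd hda hB1 hB2
  rcases hsep with ⟨m, hm, h1, h2⟩ | h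
  · obtain ⟨t, ht1, ht2, ht0⟩ := bic_zero hq m h1 h2 a b hB1
    obtain ⟨s, hs1, hs2, hs0⟩ := bic_zero hq m h1 h2 c d hB2
    have h3 := hq.pos t s (by linarith) (by linarith)
    have h4 := det_zero_of m hm _ _ ht0 hs0
    linarith
  · obtain ⟨⟨t, -, -, ht⟩, -⟩ := hB1
    exact hq.nint t (h _ ht)

end Pool.Agent.H221.TW
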