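import Pool.Agent.H490.TW.PB

/-!
Project TW (helper221): the dispatcher.  Every chain in generic position has, after a rotation of
the indices and a reflection, one of 34 vectors of successor counts.
-/

set_option autoImplicit false

namespace Pool.Agent.H221.TW

open Pool.Agent.H332.HT (V2 det)
open Pool.Agent.H490.TW.PB (Hyp)

/-- `v` is the vector of successor counts: exactly `v i` of the points `p (i+1), …, p (i+9)` are
less than a half-turn after `p i` -/
def HV (th : ℕ → ℝ) (v : List ℕ) : Prop :=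
  ∀ i < 10, th (i + v.getD i 0) < th i + Real.pi ∧ th i + Real.pi < th (i + v.getD i 0 + 1)

/-- the 34 classes -/
def cls : List (List ℕ) :=
  [[0,9,8,7,6,5,4,3,2,1], [1,1,8,8,7,6,5,4,3,2], [1,2,8,7,7,6,5,4,3,2], [1,3,8,7,6,6,5,4,3,2],
   [2,2,2,7,7,7,6,5,4,3], [2,3,2,7,6,7,6,5,4,3], [1,4,8,7,6,5,5,4,3,2], [2,2,3,7,7,6,6,5,4,3],
   [2,3,3,7,6,6,6,5,4,3], [2,4,3,7,6,5,6,5,4,3], [2,2,4,7,7,6,5,5,4,3], [2,3,4,7,6,6,5,5,4,3],
   [3,3,2,3,6,7,6,6,5,4], [2,4,4,7,6,5,5,5,4,3], [3,3,3,3,6,6,6,6,5,4], [3,4,3,3,6,5,6,6,5,4],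
   [2,5,4,7,6,5,4,5,4,3], [3,4,4,3,6,5,5,6,5,4], [3,5,4,3,6,5,4,6,5,4], [2,3,5,7,6,6,5,4,4,3],
   [2,4,5,7,6,5,5,4,4,3], [3,3,3,4,6,6,6,5,5,4], [3,4,3,4,6,5,6,5,5,4], [3,3,4,4,6,6,5,5,5,4],
   [3,4,4,4,6,5,5,5,5,4], [3,5,4,4,6,5,4,5,5,4], [4,5,4,3,3,5,4,6,6,5], [3,4,5,4,6,5,5,4,5,4],
   [3,3,4,5,6,6,5,5,4,4], [3,4,4,5,6,5,5,5,4,4], [4,4,4,4,4,5,5,5,5,5], [4,5,4,4,4,5,4,5,5,5],
   [4,4,5,4,4,5,5,4,5,5], [4,5,4,5,4,5,4,5,4,5]]

/-! ### the reflection -/

/-- the reflection of the plane -/
noncomputable def rho : V2 ≃L[ℝ] V2 :=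
  (ContinuousLinearEquiv.refl ℝ ℝ).prodCongr (ContinuousLinearEquiv.neg ℝ)

theorem rho_apply (x : V2) : rho x = (x.1, -x.2) := rfl

theorem rho_rho (x : V2) : rho (rho x) = x := by
  simp [rho_apply]

theorem det_rho (x y : V2) : det (rho x) (rho y) = det y x := by
  simp only [rho_apply, det]
  ring

/-- reversed index -/
def rv (i : ℕ) : ℕ := 10 - i % 10

/-- reversed angles -/
noncomputable def thr (th : ℕ → ℝ) (i : ℕ) : ℝ :=
  2 * Real.pi * ((i / 10 : ℕ) + 1) - th (rv i)

section
variable {Q : Set V2} {th : ℕ → ℝ} {p : ℕ → V2} (h : Hyp Q th p)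
include h

theorem th_mul (r q : ℕ) : th (10 * q + r) = th r + 2 * Real.pi * q := by
  induction q with
  | zero => simp
  | succ q ih =>
    have := h.ch.per (10 * q + r)
    rw [show 10 * (q + 1) + r = 10 * q + r + 10 by ring, this, ih]
    push_cast
    ring

theorem p_mul (r q : ℕ) : p (10 * q + r) = p r := by
  induction q with
  | zero => simp
  | succ q ih => rw [show 10 * (q + 1) + r = 10 * q + r + 10 by ring, h.ch.pper, ih]

theorem thr_eq (n k : ℕ) (hk : k ≤ 10 * n) : thr th k = 2 * Real.pi * n - th (10 * n - k) := by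
  have hk0 : k = 10 * (k / 10) + k % 10 := (Nat.div_add_mod k 10).symm
  have hm : k % 10 < 10 := Nat.mod_lt _ (by norm_num)
  unfold thr rv
  rcases Nat.eq_zero_or_pos (k % 10) with h0 | h0
  · have e1 : 10 * n - k = 10 * (n - k / 10) + 0 := by omega
    have h2 : k / 10 ≤ n := by omega
    have e2 := th_mul h 0 (n - k / 10)
    have e3 := th_mul h 0 1
    rw [e1, e2, h0]
    norm_num at e3
    rw [show 10 - 0 = 10 from rfl, e3, Nat.cast_sub h2]
    ring
  · have h2 : k / 10 + 1 ≤ n := by omega
    have e1 : 10 * n - k = 10 * (n - (k / 10 + 1)) + (10 - k % 10) := by omega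
    rw [e1, th_mul h, Nat.cast_sub h2]
    push_cast
    ring

theorem pr_eq (n k : ℕ) (hk : k ≤ 10 * n) : p (rv k) = p (10 * n - k) := by
  have hk0 : k = 10 * (k / 10) + k % 10 := (Nat.div_add_mod k 10).symm
  have hm : k % 10 < 10 := Nat.mod_lt _ (by norm_num)
  unfold rv
  rcases Nat.eq_zero_or_pos (k % 10) with h0 | h0
  · have e1 : 10 * n - k = 10 * (n - k / 10) + 0 := by omega
    rw [e1, p_mul h, h0]
    exact h.ch.pper 0
  · have e1 : 10 * n - k = 10 * (n - (k / 10 + 1)) + (10 - k % 10) := by omega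
    rw [e1, p_mul h]

theorem reflect : Hyp (rho ⁻¹' Q) (thr th) (fun i => rho (p (rv i))) := by
  have hfr : frontier (rho ⁻¹' Q) = rho ⁻¹' frontier Q :=
    (rho.toHomeomorph.preimage_frontier Q).symm
  have hin : interior (rho ⁻¹' Q) = rho ⁻¹' interior Q :=
    (rho.toHomeomorph.preimage_interior Q).symm
  -- determinants
  have hD : ∀ n j k, j ≤ 10 * n → k ≤ 10 * n →
      det (rho (p (rv j))) (rho (p (rv k))) = det (p (10 * n - k)) (p (10 * n - j)) := by
    intro n j k hj hk
    rw [det_rho, pr_eq h n j hj, pr_eq h n k hk]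
  refine ⟨h.cvx.linear_preimage (rho : V2 →ₗ[ℝ] V2), ?_, ?_, ?_, ?_⟩
  · exact (rho.toHomeomorph.isCompact_preimage).2 h.cpt
  · rw [hin]
    show rho 0 ∈ interior Q
    rw [map_zero]
    exact h.int
  · intro x hx
    show rho _ ∈ Q
    rw [map_neg, map_smul]
    exact h.cen _ hx
  refine ⟨?_, ?_, ?_, ?_, ?_, ?_, ?_, ?_⟩
  · refine strictMono_nat_of_lt_succ fun k => ?_
    rw [thr_eq h (k + 1) k (by omega), thr_eq h (k + 1) (k + 1) (by omega)]
    have := h.ch.mono (show 10 * (k + 1) - (k + 1) < 10 * (k + 1) - k by omega)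
    linarith
  · intro k
    rw [thr_eq h (k + 1) k (by omega), thr_eq h (k + 1 + 1) (k + 10) (by omega),
      show 10 * (k + 1 + 1) - (k + 10) = 10 * (k + 1) - k by omega]
    push_cast
    ring
  · intro k
    show rho (p (rv (k + 10))) = rho (p (rv k))
    rw [pr_eq h (k + 1) k (by omega), pr_eq h (k + 1 + 1) (k + 10) (by omega),
      show 10 * (k + 1 + 1) - (k + 10) = 10 * (k + 1) - k by omega]
  · intro k
    obtain ⟨r, hr, e⟩ := h.ch.pol (10 * (k + 1) - k)
    refine ⟨r, hr, ?_⟩
    show rho (p (rv k)) = _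
    rw [pr_eq h (k + 1) k (by omega), e, rho_apply, thr_eq h (k + 1) k (by omega)]
    have e1 : 2 * Real.pi * ((k + 1 : ℕ) : ℝ) - th (10 * (k + 1) - k) =
        ((k + 1 : ℕ) : ℝ) * (2 * Real.pi) - th (10 * (k + 1) - k) := by ring
    rw [e1, Real.cos_nat_mul_two_pi_sub, Real.sin_nat_mul_two_pi_sub]
    simp
  · intro k
    rw [hfr]
    show rho (rho (p (rv k))) ∈ frontier Q
    rw [rho_rho]
    exact h.ch.fr _
  · intro i j h1 h2 hcon
    rw [thr_eq h (j + 1) i (by omega), thr_eq h (j + 1) j (by omega)] at hcon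
    exact h.ch.gen (10 * (j + 1) - j) (10 * (j + 1) - i) (by omega) (by omega) (by linarith)
  · intro i j h1 h2 h3
    have hn1 : i ≤ 10 * (j + 1) := by omega
    rw [thr_eq h (j + 1) i (by omega), thr_eq h (j + 1) (j + 1) (by omega)] at h3
    have h4 := h.ch.pair (10 * (j + 1) - (j + 1)) (10 * (j + 1) - (i + 1)) (by omega) (by omega)
      (by
        rw [show 10 * (j + 1) - (i + 1) + 1 = 10 * (j + 1) - i by omega]
        linarith)
    show det (rho (p (rv i))) (rho (p (rv (j + 1)))) <
      max (det (rho (p (rv i))) (rho (p (rv (i + 1)))))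
        (det (rho (p (rv j))) (rho (p (rv (j + 1)))))
    rw [hD (j + 1) i (j + 1) (by omega) (by omega), hD (j + 1) i (i + 1) (by omega) (by omega),
      hD (j + 1) j (j + 1) (by omega) (by omega), max_comm]
    rw [show 10 * (j + 1) - (i + 1) + 1 = 10 * (j + 1) - i by omega,
      show 10 * (j + 1) - (j + 1) + 1 = 10 * (j + 1) - j by omega] at h4
    exact h4
  · intro i h1 h2
    have t0 := thr_eq h (i + 5) i (by omega)
    have t2 := thr_eq h (i + 5) (i + 2) (by omega)
    have t3 := thr_eq h (i + 5) (i + 3) (by omega)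
    have t5 := thr_eq h (i + 5) (i + 5) (by omega)
    rw [t0, t3] at h1
    rw [t2, t5] at h2
    have a0 : 10 * (i + 5) - i = 10 * (i + 5) - (i + 5) + 5 := by omega
    have a1 : 10 * (i + 5) - (i + 1) = 10 * (i + 5) - (i + 5) + 4 := by omega
    have a2 : 10 * (i + 5) - (i + 2) = 10 * (i + 5) - (i + 5) + 3 := by omega
    have a3 : 10 * (i + 5) - (i + 3) = 10 * (i + 5) - (i + 5) + 2 := by omega
    have a4 : 10 * (i + 5) - (i + 4) = 10 * (i + 5) - (i + 5) + 1 := by omega
    have h4 := h.ch.ch3 (10 * (i + 5) - (i + 5))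
      (by rw [a2] at h2; linarith) (by rw [a0, a3] at h1; linarith)
    show det (rho (p (rv i))) (rho (p (rv (i + 3)))) <
        det (rho (p (rv i))) (rho (p (rv (i + 1)))) ∨
      det (rho (p (rv (i + 2)))) (rho (p (rv (i + 5)))) <
        det (rho (p (rv (i + 4)))) (rho (p (rv (i + 5)))) ∨
      det (rho (p (rv i))) (rho (p (rv (i + 3)))) +
        det (rho (p (rv (i + 2)))) (rho (p (rv (i + 5)))) <
        101 / 100 * det (rho (p (rv (i + 2)))) (rho (p (rv (i + 3)))) +
          det (rho (p (rv i))) (rho (p (rv (i + 5)))) ∨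
      det (rho (p (rv (i + 1)))) (rho (p (rv (i + 2)))) *
        det (rho (p (rv (i + 3)))) (rho (p (rv (i + 4)))) <
        101 / 100 * (det (rho (p (rv i))) (rho (p (rv (i + 1)))) *
          det (rho (p (rv (i + 4)))) (rho (p (rv (i + 5)))))
    rw [hD (i + 5) i (i + 3) (by omega) (by omega), hD (i + 5) i (i + 1) (by omega) (by omega),
      hD (i + 5) (i + 2) (i + 5) (by omega) (by omega),
      hD (i + 5) (i + 4) (i + 5) (by omega) (by omega),
      hD (i + 5) (i + 2) (i + 3) (by omega) (by omega),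
      hD (i + 5) i (i + 5) (by omega) (by omega),
      hD (i + 5) (i + 1) (i + 2) (by omega) (by omega),
      hD (i + 5) (i + 3) (i + 4) (by omega) (by omega), a0, a1, a2, a3, a4]
    rcases h4 with h5 | h5 | h5 | h5
    · right; left; exact h5
    · left; exact h5
    · right; right; left
      linarith
    · right; right; right
      linarith [mul_comm
        (det (p (10 * (i + 5) - (i + 5) + 1)) (p (10 * (i + 5) - (i + 5) + 2)))
        (det (p (10 * (i + 5) - (i + 5) + 3)) (p (10 * (i + 5) - (i + 5) + 4))),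
        mul_comm (det (p (10 * (i + 5) - (i + 5))) (p (10 * (i + 5) - (i + 5) + 1)))
        (det (p (10 * (i + 5) - (i + 5) + 4)) (p (10 * (i + 5) - (i + 5) + 5)))]

theorem shift_n (r : ℕ) : Hyp Q (fun i => th (i + r)) (fun i => p (i + r)) := by
  induction r with
  | zero => exact h
  | succ r ih =>
    have := Pool.Agent.H490.TW.PB.shift ih
    have e : ∀ i, i + 1 + r = i + (r + 1) := fun i => by ring
    simp only [e] at this
    exact this

end

/-! ### the counts -/

/-- the count of a chain -/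
noncomputable def cnt (th : ℕ → ℝ) (i : ℕ) : ℕ :=
  letI := Classical.decPred fun k => th (i + k) < th i + Real.pi
  Nat.findGreatest (fun k => th (i + k) < th i + Real.pi) 9

section
variable {Q : Set V2} {th : ℕ → ℝ} {p : ℕ → V2} (h : Hyp Q th p)
include h

omit h in
theorem cnt_le (i : ℕ) : cnt th i ≤ 9 := Nat.findGreatest_le 9

omit h in
theorem cnt_lt (i : ℕ) : th (i + cnt th i) < th i + Real.pi := by
  classical
  unfold cnt
  exact Nat.findGreatest_spec (P := fun k => th (i + k) < th i + Real.pi) (Nat.zero_le 9)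
    (by simpa using Real.pi_pos)

theorem lt_cnt (i : ℕ) : th i + Real.pi < th (i + cnt th i + 1) := by
  classical
  rcases Nat.lt_or_ge (cnt th i) 9 with h9 | h9
  · have h1 : ¬ (th (i + (cnt th i + 1)) < th i + Real.pi) := by
      unfold cnt at h9 ⊢
      exact Nat.findGreatest_is_greatest (Nat.lt_succ_self _) h9
    have h2 := h.ch.gen i (i + (cnt th i + 1)) (by omega) (by omega)
    rw [show i + cnt th i + 1 = i + (cnt th i + 1) by ring]
    exact lt_of_le_of_ne (not_lt.1 h1) (fun hc => h2 hc.symm)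
  · have h10 : cnt th i = 9 := le_antisymm (cnt_le i) h9
    rw [h10, show i + 9 + 1 = i + 10 by ring, h.ch.per]
    linarith [Real.pi_pos]

theorem cnt_iff (i k : ℕ) : k ≤ cnt th i ↔ th (i + k) < th i + Real.pi := by
  constructor
  · intro hk
    exact lt_of_le_of_lt (h.ch.mono.monotone (by omega)) (cnt_lt i)
  · intro hk
    by_contra hc
    have : th (i + cnt th i + 1) ≤ th (i + k) := h.ch.mono.monotone (by omega)
    linarith [lt_cnt h i]

theorem cnt_per (i : ℕ) : cnt th (i + 10) = cnt th i := by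
  refine le_antisymm ?_ ?_
  · rw [cnt_iff h]
    have := cnt_lt (th := th) (i + 10)
    rw [h.ch.per, show i + 10 + cnt th (i + 10) = i + cnt th (i + 10) + 10 by ring, h.ch.per] at this
    linarith
  · rw [cnt_iff h]
    have := cnt_lt (th := th) i
    rw [h.ch.per, show i + 10 + cnt th i = i + cnt th i + 10 by ring, h.ch.per]
    linarith

theorem cnt_mod (i : ℕ) : cnt th (i % 10) = cnt th i := by
  have : ∀ q r, cnt th (10 * q + r) = cnt th r := by
    intro q r
    induction q with
    | zero => simp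
    | succ q ih => rw [show 10 * (q + 1) + r = 10 * q + r + 10 by ring, cnt_per h, ih]
  conv_rhs => rw [← Nat.div_add_mod i 10]
  rw [this]

/-- tournament condition -/
theorem cnt_tour (i k : ℕ) (h2 : k ≤ 9) :
    k ≤ cnt th i ↔ ¬ (10 - k ≤ cnt th (i + k)) := by
  rw [cnt_iff h, cnt_iff h, show i + k + (10 - k) = i + 10 by omega, h.ch.per]
  constructor
  · intro h3 h4
    linarith
  · intro h3
    rcases Nat.eq_zero_or_pos k with h0 | h0
    · subst h0
      simpa using Real.pi_pos
    · have h4 := h.ch.gen i (i + k) (by omega) (by omega)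
      rcases lt_trichotomy (th (i + k)) (th i + Real.pi) with h5 | h5 | h5
      · exact h5
      · exact absurd h5 h4
      · exact absurd (by linarith) h3

theorem cnt_mono (i : ℕ) : cnt th i ≤ cnt th (i + 1) + 1 := by
  rcases Nat.eq_zero_or_pos (cnt th i) with h0 | h0
  · omega
  · have : cnt th i - 1 ≤ cnt th (i + 1) := by
      rw [cnt_iff h, show i + 1 + (cnt th i - 1) = i + cnt th i by omega]
      have h1 := cnt_lt (th := th) i
      have h2 := h.ch.mono (Nat.lt_succ_self i)
      have h3 : th i < th (i + 1) := h2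
      linarith
    omega

end

/-! ### the search -/

/-- compatibility of a new entry `x` with the reversed list `l` of the earlier ones; `k` is the
distance of the head of `l` to `x` -/
def okl (x : ℕ) : ℕ → List ℕ → Bool
  | _, [] => true
  | k, y :: l => (xor (Nat.ble k y) (Nat.ble (10 - k) x)) && okl x (k + 1) l

/-- monotonicity with the previous entry -/
def okh (x : ℕ) : List ℕ → Bool
  | [] => true
  | y :: _ => Nat.ble y (x + 1)

/-- the goal for a complete vector -/
def goal (l : List ℕ) : Bool :=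
  (List.range 10).any fun r =>
    cls.contains ((List.range 10).map fun i => l.getD ((i + r) % 10) 0) ||
    cls.contains ((List.range 10).map fun i => 9 - l.getD ((20 - (i + r)) % 10) 0)

/-- the search tree -/
def search : ℕ → List ℕ → Bool
  | 0, l => goal l.reverse
  | n + 1, l => (List.range 10).all fun x => !(okh x l && okl x 1 l) || search n (x :: l)

theorem search_ok : search 10 [] = true := by decide +kernel

/-- the reversed list of the first `m` counts -/
def pre (c : ℕ → ℕ) : ℕ → List ℕ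
  | 0 => []
  | m + 1 => c m :: pre c m

theorem okl_pre (c : ℕ → ℕ) (hc : ∀ i k, k ≤ 9 → (k ≤ c i ↔ ¬ (10 - k ≤ c (i + k)))) (x : ℕ) :
    ∀ m k, k + m ≤ 10 → (∀ i, i < m → c (i + k + (m - 1 - i)) = x) → okl x k (pre c m) = true := by
  intro m
  induction m with
  | zero => intro k _ _; rfl
  | succ m ih =>
    intro k hk hx
    simp only [pre, okl, Bool.and_eq_true]
    constructor
    · have h1 := hx m (by omega)
      rw [show m + k + (m + 1 - 1 - m) = m + k by omega] at h1
      have h2 := hc m k (by omega)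
      rw [h1] at h2
      by_cases h3 : k ≤ c m
      · have h4 := h2.1 h3
        have b1 : Nat.ble k (c m) = true := by rw [Nat.ble_eq]; exact h3
        have b2 : Nat.ble (10 - k) x = false := by
          rw [← Bool.not_eq_true, Nat.ble_eq]
          exact h4
        rw [b1, b2]
        rfl
      · have h4 : 10 - k ≤ x := by
          by_contra h5
          exact h3 (h2.2 h5)
        have b1 : Nat.ble k (c m) = false := by
          rw [← Bool.not_eq_true, Nat.ble_eq]
          exact h3
        have b2 : Nat.ble (10 - k) x = true := by rw [Nat.ble_eq]; exact h4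
        rw [b1, b2]
        rfl
    · refine ih (k + 1) (by omega) ?_
      intro i hi
      have := hx i (by omega)
      rw [← this]
      congr 1
      omega

theorem search_pre (c : ℕ → ℕ) (h9 : ∀ i, c i ≤ 9)
    (hc : ∀ i k, k ≤ 9 → (k ≤ c i ↔ ¬ (10 - k ≤ c (i + k))))
    (hm : ∀ i, c i ≤ c (i + 1) + 1) :
    ∀ n m, m + n = 10 → search n (pre c m) = true → goal (pre c 10).reverse = true := by
  intro n
  induction n with
  | zero =>
    intro m hmn hs
    obtain rfl : m = 10 := by omega
    exact hs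
  | succ n ih =>
    intro m hmn hs
    simp only [search, List.all_eq_true, List.mem_range] at hs
    have h1 := hs (c m) (by have := h9 m; omega)
    have hok1 : okh (c m) (pre c m) = true := by
      rcases m with _ | m
      · rfl
      · simp only [pre, okh, Nat.ble_eq]
        exact hm m
    have hok2 : okl (c m) 1 (pre c m) = true := by
      refine okl_pre c hc (c m) m 1 (by omega) ?_
      intro i hi
      congr 1
      omega
    rw [hok1, hok2] at h1
    simp only [Bool.and_self, Bool.not_true, Bool.false_or] at h1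
    exact ih (m + 1) (by omega) h1

theorem pre_rev (c : ℕ → ℕ) : (pre c 10).reverse =
    [c 0, c 1, c 2, c 3, c 4, c 5, c 6, c 7, c 8, c 9] := rfl

theorem getD_pre (c : ℕ → ℕ) (j : ℕ) (hj : j < 10) : (pre c 10).reverse.getD j 0 = c j := by
  rw [pre_rev]
  interval_cases j <;> rfl

theorem disp (H : ∀ v ∈ cls, ∀ (Q : Set V2) (th : ℕ → ℝ) (p : ℕ → V2), Hyp Q th p → HV th v →
    False) : S_planarG := by
  intro Q hQ1 hQ2 hQ3 hQ4 th p hch
  have h : Hyp Q th p := ⟨hQ1, hQ2, hQ3, hQ4, hch⟩
  have hg : goal (pre (cnt th) 10).reverse = true :=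
    search_pre (cnt th) cnt_le (cnt_tour h) (cnt_mono h) 10 0 rfl search_ok
  simp only [goal, List.any_eq_true, List.mem_range, Bool.or_eq_true, List.contains_iff_mem] at hg
  obtain ⟨r, hr, hg | hg⟩ := hg
  · refine H _ hg Q (fun i => th (i + r)) (fun i => p (i + r)) (shift_n h r) ?_
    intro i hi
    have e : ((List.range 10).map fun i => (pre (cnt th) 10).reverse.getD ((i + r) % 10) 0).getD i 0
        = cnt th (i + r) := by
      rw [List.getD_eq_getElem?_getD, List.getElem?_map, List.getElem?_range hi]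
      simp only [Option.map_some, Option.getD_some]
      rw [getD_pre _ _ (Nat.mod_lt _ (by norm_num)), cnt_mod h]
    rw [e]
    constructor
    · have := cnt_lt (th := th) (i + r)
      show th (i + cnt th (i + r) + r) < th (i + r) + Real.pi
      rw [show i + cnt th (i + r) + r = i + r + cnt th (i + r) by ring]
      exact this
    · have := lt_cnt h (i + r)
      show th (i + r) + Real.pi < th (i + cnt th (i + r) + 1 + r)
      rw [show i + cnt th (i + r) + 1 + r = i + r + cnt th (i + r) + 1 by ring]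
      exact this
  · have h' := shift_n (reflect h) r
    refine H _ hg _ _ _ h' ?_
    intro i hi
    have hir : i + r ≤ 10 * 3 := by omega
    have e : ((List.range 10).map fun i =>
        9 - (pre (cnt th) 10).reverse.getD ((20 - (i + r)) % 10) 0).getD i 0
        = 9 - cnt th (20 - (i + r)) := by
      rw [List.getD_eq_getElem?_getD, List.getElem?_map, List.getElem?_range hi]
      simp only [Option.map_some, Option.getD_some]
      rw [getD_pre _ _ (Nat.mod_lt _ (by norm_num)), cnt_mod h]
    rw [e]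
    have hm30 : cnt th (20 - (i + r)) = cnt th (10 * 3 - (i + r)) := by
      rw [← cnt_mod h (20 - (i + r)), ← cnt_mod h (10 * 3 - (i + r))]
      congr 1
      omega
    rw [hm30]
    have hc9 := cnt_le (th := th) (10 * 3 - (i + r))
    have A := cnt_lt (th := th) (10 * 3 - (i + r))
    have B := lt_cnt h (10 * 3 - (i + r))
    generalize cnt th (10 * 3 - (i + r)) = c at *
    constructor
    · show thr th (i + (9 - c) + r) < thr th (i + r) + Real.pi
      rw [thr_eq h 3 (i + r) (by omega), thr_eq h 3 (i + (9 - c) + r) (by omega)]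
      have e2 : th (10 * 3 - (i + (9 - c) + r) + 10) = th (10 * 3 - (i + (9 - c) + r)) +
        2 * Real.pi := h.ch.per _
      rw [show 10 * 3 - (i + (9 - c) + r) + 10 = 10 * 3 - (i + r) + c + 1 by omega] at e2
      linarith
    · show thr th (i + r) + Real.pi < thr th (i + (9 - c) + 1 + r)
      rw [thr_eq h 3 (i + r) (by omega), thr_eq h 3 (i + (9 - c) + 1 + r) (by omega)]
      have e2 : th (10 * 3 - (i + (9 - c) + 1 + r) + 10) = th (10 * 3 - (i + (9 - c) + 1 + r)) +
        2 * Real.pi := h.ch.per _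
      rw [show 10 * 3 - (i + (9 - c) + 1 + r) + 10 = 10 * 3 - (i + r) + c by omega] at e2
      linarith

end Pool.Agent.H221.TW
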