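import Pool.Agent.H221.TW.StmG

/-!
Project TW (helper221): case I from the planar lemma in generic position.  The division points of
the chain of bad arcs are moved a little.
-/

set_option autoImplicit false

namespace Pool.Agent.H221.TW

open Pool.Agent.H332.HT (V2 V3 det P IP T C Full Good Bi)
open Pool.Agent.H165.HW (GB Par)
open Filter Topology

theorem ind10 {Φ : ℕ → Prop} (h0 : ∀ i < 10, Φ i) (hs : ∀ i, Φ i → Φ (i + 10)) : ∀ i, Φ i := by
  intro i
  induction i using Nat.strong_induction_on with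
  | _ i ih =>
    by_cases h : i < 10
    · exact h0 i h
    · obtain ⟨k, rfl⟩ : ∃ k, i = k + 10 := ⟨i - 10, by omega⟩
      exact hs k (ih k (by omega))

/-- the moved angles -/
noncomputable def mv (t : ℕ → ℝ) (s : ℝ) (i : ℕ) : ℝ := t i + s * ((i % 10 : ℕ) : ℝ)

theorem mv_zero (t : ℕ → ℝ) (i : ℕ) : mv t 0 i = t i := by simp [mv]

theorem mv_add (t : ℕ → ℝ) (h : ∀ i, t (i + 10) = t i + 2 * Real.pi) (s : ℝ) (i : ℕ) :
    mv t s (i + 10) = mv t s i + 2 * Real.pi := by
  unfold mv
  rw [h, Nat.add_mod_right]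
  ring

theorem mv_cont (t : ℕ → ℝ) (i : ℕ) : Continuous fun s => mv t s i := by
  unfold mv
  fun_prop

/-- the determinants of the moved points -/
noncomputable def Dd (q : ℝ → V2) (t : ℕ → ℝ) (i j : ℕ) (s : ℝ) : ℝ :=
  det (q (mv t s i)) (q (mv t s j))

theorem Dd_zero (q : ℝ → V2) (t : ℕ → ℝ) (i j : ℕ) :
    Dd q t i j 0 = det (q (t i)) (q (t j)) := by simp [Dd, mv_zero]

theorem Dd_cont (q : ℝ → V2) (hq : Continuous q) (t : ℕ → ℝ) (i j : ℕ) :
    Continuous (Dd q t i j) := by
  have h1 : Continuous fun s => q (mv t s i) := hq.comp (mv_cont t i)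
  have h2 : Continuous fun s => q (mv t s j) := hq.comp (mv_cont t j)
  unfold Dd det
  exact ((continuous_fst.comp h1).mul (continuous_snd.comp h2)).sub
    ((continuous_snd.comp h1).mul (continuous_fst.comp h2))

theorem ev_lt {f g : ℝ → ℝ} (hf : Continuous f) (hg : Continuous g) (h : f 0 < g 0) :
    ∀ᶠ s in 𝓝[>] (0 : ℝ), f s < g s :=
  (hf.continuousAt.eventually_lt hg.continuousAt h).filter_mono nhdsWithin_le_nhds

theorem caseIG (hpair : S_pair) (hch3 : S_ch3) (hbic : S_bic) (hplanar : S_planarG)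
    (hpar : S_par) (hbas : S_bas) (hred : S_red) : S_I := by
  intro K hK hsep hful
  obtain ⟨q, r, hq, hr, hrp, hqr⟩ := hpar K hK
  obtain ⟨hPc, hPcv, h0, -, -⟩ := hbas K hK
  refine hred K hK q hq ?_ 0 ?_
  · intro t ht
    exact hq.nint t (hful _ ht)
  rintro ⟨t, hmono, ht0, hper, hbad⟩
  have hper0 : ∀ i, t (i + 5) < t i + 2 * Real.pi := by
    intro i
    rw [← hper i]
    exact hmono (by omega)
  have hpi : ∀ u, det (q u) (q (u + Real.pi)) = 0 := by
    intro u
    rw [hqr u, hqr (u + Real.pi)]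
    simp only [det, Real.cos_add_pi, Real.sin_add_pi]
    ring
  -- the labels, with the limit case
  have hP : ∀ i j, i + 2 ≤ j → j ≤ i + 8 → t (j + 1) ≤ t i + Real.pi →
      det (q (t i)) (q (t (j + 1))) <
        max (det (q (t i)) (q (t (i + 1)))) (det (q (t j)) (q (t (j + 1)))) := by
    intro i j hij hji hle
    rcases lt_or_eq_of_le hle with hlt | heq
    · by_contra hcon
      rw [not_lt, max_le_iff] at hcon
      have h1 : t (i + 1) < t j := hmono (by omega)
      obtain ⟨hb1, hb2⟩ := hpair K hK q hq (t i) (t (i + 1)) (t j) (t (j + 1))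
        (hmono (by omega)).le h1 (hmono (by omega)).le hlt hcon.1 hcon.2 (hbad i) (hbad j)
      exact hbic K hK hsep q hq (t i) (t (i + 1)) (t j) (t (j + 1))
        (hmono (by omega)).le h1 (hmono (by omega)).le hlt hb1 hb2
    · rw [heq, hpi]
      refine lt_max_of_lt_left (hq.pos _ _ (hmono (by omega)) ?_)
      rw [← heq]
      exact hmono (by omega)
  have hC : ∀ i, t (i + 3) ≤ t i + Real.pi → t (i + 5) ≤ t (i + 2) + Real.pi →
      det (q (t i)) (q (t (i + 3))) < det (q (t i)) (q (t (i + 1))) ∨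
      det (q (t (i + 2))) (q (t (i + 5))) < det (q (t (i + 4))) (q (t (i + 5))) ∨
      det (q (t i)) (q (t (i + 3))) + det (q (t (i + 2))) (q (t (i + 5))) <
        101 / 100 * det (q (t (i + 2))) (q (t (i + 3))) + det (q (t i)) (q (t (i + 5))) ∨
      det (q (t (i + 1))) (q (t (i + 2))) * det (q (t (i + 3))) (q (t (i + 4))) <
        101 / 100 * (det (q (t i)) (q (t (i + 1))) * det (q (t (i + 4))) (q (t (i + 5)))) := by
    intro i h3 h5
    rcases lt_or_eq_of_le h3 with h3' | h3'
    swap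
    · left
      rw [h3', hpi]
      refine hq.pos _ _ (hmono (by omega)) ?_
      rw [← h3']
      exact hmono (by omega)
    rcases lt_or_eq_of_le h5 with h5' | h5'
    swap
    · right; left
      rw [h5', hpi]
      rw [← h5']
      refine hq.pos _ _ (hmono (by omega)) ?_
      have : t (i + 2) < t (i + 4) := hmono (by omega)
      linarith
    have p1 : 0 < det (q (t (i + 2))) (q (t (i + 3))) := by
      refine hq.pos _ _ (hmono (by omega)) ?_
      have : t i < t (i + 2) := hmono (by omega)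
      linarith
    have p2 : 0 < det (q (t i)) (q (t (i + 1))) := by
      refine hq.pos _ _ (hmono (by omega)) ?_
      have : t (i + 1) < t (i + 3) := hmono (by omega)
      linarith
    have p3 : 0 < det (q (t (i + 4))) (q (t (i + 5))) := by
      refine hq.pos _ _ (hmono (by omega)) ?_
      have : t (i + 2) < t (i + 4) := hmono (by omega)
      linarith
    have p4 := mul_pos p2 p3
    by_contra hcon
    push Not at hcon
    obtain ⟨c1, c2, c3, c4⟩ := hcon
    have e3 : 0 < det (q (t (i + 3)) - q (t (i + 5))) (q (t (i + 2)) - q (t i)) := by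
      have : det (q (t (i + 3)) - q (t (i + 5))) (q (t (i + 2)) - q (t i)) =
          det (q (t i)) (q (t (i + 3))) + det (q (t (i + 2))) (q (t (i + 5))) -
          det (q (t (i + 2))) (q (t (i + 3))) - det (q (t i)) (q (t (i + 5))) := by
        simp only [det, Prod.fst_sub, Prod.snd_sub]
        ring
      rw [this]
      linarith
    have e4 : det (q (t i)) (q (t (i + 1))) * det (q (t (i + 4))) (q (t (i + 5))) <
        det (q (t (i + 1))) (q (t (i + 2))) * det (q (t (i + 3))) (q (t (i + 4))) := by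
      linarith
    obtain ⟨hb1, hb2⟩ := hch3 K hK q hq (t i) (t (i + 1)) (t (i + 2)) (t (i + 3)) (t (i + 4))
      (t (i + 5)) (hmono (by omega)).le (hmono (by omega)) (hmono (by omega)).le
      (hmono (by omega)) (hmono (by omega)).le h3' h5' (hper0 i) c1 c2 e3 e4 (hbad i)
      (hbad (i + 2)) (hbad (i + 4))
    exact hbic K hK hsep q hq (t i) (t (i + 1)) (t (i + 2)) (t (i + 3))
      (hmono (by omega)).le (hmono (by omega)) (hmono (by omega)).le h3' hb1 hb2
  -- all conditions hold for small s > 0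
  have E1 : ∀ i, ∀ᶠ s in 𝓝[>] (0 : ℝ), mv t s i < mv t s (i + 1) := by
    intro i
    refine ev_lt (mv_cont t i) (mv_cont t (i + 1)) ?_
    rw [mv_zero, mv_zero]
    exact hmono (by omega)
  have E2 : ∀ i j, i < j → j < i + 10 → ∀ᶠ s in 𝓝[>] (0 : ℝ), mv t s j ≠ mv t s i + Real.pi := by
    intro i j hij hji
    by_cases h : t j = t i + Real.pi
    · filter_upwards [self_mem_nhdsWithin] with s hs hcon
      have hs' : (0 : ℝ) < s := hs
      unfold mv at hcon
      rw [h] at hcon
      have h1 : s * (((j % 10 : ℕ) : ℝ) - ((i % 10 : ℕ) : ℝ)) = 0 := by linarith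
      rcases mul_eq_zero.1 h1 with h2 | h2
      · exact hs'.ne' h2
      · have h3 : ((j % 10 : ℕ) : ℝ) = ((i % 10 : ℕ) : ℝ) := by linarith
        have h4 : j % 10 = i % 10 := by exact_mod_cast h3
        omega
    · have hc : Continuous fun s => mv t s j - (mv t s i + Real.pi) :=
        (mv_cont t j).sub ((mv_cont t i).add continuous_const)
      have h1 : (fun s => mv t s j - (mv t s i + Real.pi)) 0 ≠ 0 := by
        simp only [mv_zero]
        exact sub_ne_zero.2 h
      have h2 := (hc.continuousAt.eventually_ne h1).filter_mono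
        (nhdsWithin_le_nhds (s := Set.Ioi (0 : ℝ)))
      filter_upwards [h2] with s hs hcon
      exact hs (sub_eq_zero.2 hcon)
  have E3 : ∀ i j, i + 2 ≤ j → j ≤ i + 8 → ∀ᶠ s in 𝓝[>] (0 : ℝ),
      mv t s (j + 1) < mv t s i + Real.pi →
      Dd q t i (j + 1) s < max (Dd q t i (i + 1) s) (Dd q t j (j + 1) s) := by
    intro i j hij hji
    by_cases h : t (j + 1) ≤ t i + Real.pi
    · have h1 := hP i j hij hji h
      have h2 : ∀ᶠ s in 𝓝[>] (0 : ℝ),
          Dd q t i (j + 1) s < max (Dd q t i (i + 1) s) (Dd q t j (j + 1) s) := by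
        refine ev_lt (Dd_cont q hq.cont t _ _)
          ((Dd_cont q hq.cont t i (i + 1)).max (Dd_cont q hq.cont t j (j + 1))) ?_
        simp only [Dd_zero]
        exact h1
      filter_upwards [h2] with s hs _
      exact hs
    · have h2 : ∀ᶠ s in 𝓝[>] (0 : ℝ), mv t s i + Real.pi < mv t s (j + 1) := by
        refine ev_lt ((mv_cont t i).add continuous_const) (mv_cont t (j + 1)) ?_
        rw [mv_zero, mv_zero]
        exact not_le.1 h
      filter_upwards [h2] with s hs hs'
      exact absurd hs' (not_lt.2 hs.le)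
  have E4 : ∀ i, ∀ᶠ s in 𝓝[>] (0 : ℝ), mv t s (i + 3) < mv t s i + Real.pi →
      mv t s (i + 5) < mv t s (i + 2) + Real.pi →
      (Dd q t i (i + 3) s < Dd q t i (i + 1) s ∨
      Dd q t (i + 2) (i + 5) s < Dd q t (i + 4) (i + 5) s ∨
      Dd q t i (i + 3) s + Dd q t (i + 2) (i + 5) s <
        101 / 100 * Dd q t (i + 2) (i + 3) s + Dd q t i (i + 5) s ∨
      Dd q t (i + 1) (i + 2) s * Dd q t (i + 3) (i + 4) s <
        101 / 100 * (Dd q t i (i + 1) s * Dd q t (i + 4) (i + 5) s)) := by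
    intro i
    have hD := fun a b => Dd_cont q hq.cont t a b
    by_cases h : t (i + 3) ≤ t i + Real.pi
    swap
    · have h2 : ∀ᶠ s in 𝓝[>] (0 : ℝ), mv t s i + Real.pi < mv t s (i + 3) := by
        refine ev_lt ((mv_cont t i).add continuous_const) (mv_cont t (i + 3)) ?_
        rw [mv_zero, mv_zero]
        exact not_le.1 h
      filter_upwards [h2] with s hs hs' _
      exact absurd hs' (not_lt.2 hs.le)
    by_cases h5 : t (i + 5) ≤ t (i + 2) + Real.pi
    swap
    · have h2 : ∀ᶠ s in 𝓝[>] (0 : ℝ), mv t s (i + 2) + Real.pi < mv t s (i + 5) := by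
        refine ev_lt ((mv_cont t (i + 2)).add continuous_const) (mv_cont t (i + 5)) ?_
        rw [mv_zero, mv_zero]
        exact not_le.1 h5
      filter_upwards [h2] with s hs _ hs'
      exact absurd hs' (not_lt.2 hs.le)
    rcases hC i h h5 with h1 | h1 | h1 | h1
    · have h2 : ∀ᶠ s in 𝓝[>] (0 : ℝ), Dd q t i (i + 3) s < Dd q t i (i + 1) s := by
        refine ev_lt (hD _ _) (hD _ _) ?_
        simp only [Dd_zero]
        exact h1
      filter_upwards [h2] with s hs _ _
      exact Or.inl hs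
    · have h2 : ∀ᶠ s in 𝓝[>] (0 : ℝ),
          Dd q t (i + 2) (i + 5) s < Dd q t (i + 4) (i + 5) s := by
        refine ev_lt (hD _ _) (hD _ _) ?_
        simp only [Dd_zero]
        exact h1
      filter_upwards [h2] with s hs _ _
      exact Or.inr (Or.inl hs)
    · have h2 : ∀ᶠ s in 𝓝[>] (0 : ℝ), Dd q t i (i + 3) s + Dd q t (i + 2) (i + 5) s <
          101 / 100 * Dd q t (i + 2) (i + 3) s + Dd q t i (i + 5) s := by
        refine ev_lt ((hD _ _).add (hD _ _))
          ((continuous_const.mul (hD _ _)).add (hD _ _)) ?_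
        simp only [Dd_zero]
        exact h1
      filter_upwards [h2] with s hs _ _
      exact Or.inr (Or.inr (Or.inl hs))
    · have h2 : ∀ᶠ s in 𝓝[>] (0 : ℝ), Dd q t (i + 1) (i + 2) s * Dd q t (i + 3) (i + 4) s <
          101 / 100 * (Dd q t i (i + 1) s * Dd q t (i + 4) (i + 5) s) := by
        refine ev_lt ((hD _ _).mul (hD _ _))
          (continuous_const.mul ((hD _ _).mul (hD _ _))) ?_
        simp only [Dd_zero]
        exact h1
      filter_upwards [h2] with s hs _ _
      exact Or.inr (Or.inr (Or.inr hs))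
  have F1 : ∀ᶠ s in 𝓝[>] (0 : ℝ), ∀ i ∈ Finset.range 10, mv t s i < mv t s (i + 1) :=
    (Filter.eventually_all_finset _).2 fun i _ => E1 i
  have F2 : ∀ᶠ s in 𝓝[>] (0 : ℝ), ∀ i ∈ Finset.range 10, ∀ j ∈ Finset.range 20,
      i < j → j < i + 10 → mv t s j ≠ mv t s i + Real.pi := by
    refine (Filter.eventually_all_finset _).2 fun i _ => (Filter.eventually_all_finset _).2
      fun j _ => ?_
    by_cases h : i < j ∧ j < i + 10
    · filter_upwards [E2 i j h.1 h.2] with s hs _ _
      exact hs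
    · exact Filter.Eventually.of_forall fun s h1 h2 => absurd ⟨h1, h2⟩ h
  have F3 : ∀ᶠ s in 𝓝[>] (0 : ℝ), ∀ i ∈ Finset.range 10, ∀ j ∈ Finset.range 20,
      i + 2 ≤ j → j ≤ i + 8 → mv t s (j + 1) < mv t s i + Real.pi →
      Dd q t i (j + 1) s < max (Dd q t i (i + 1) s) (Dd q t j (j + 1) s) := by
    refine (Filter.eventually_all_finset _).2 fun i _ => (Filter.eventually_all_finset _).2
      fun j _ => ?_
    by_cases h : i + 2 ≤ j ∧ j ≤ i + 8
    · filter_upwards [E3 i j h.1 h.2] with s hs _ _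
      exact hs
    · exact Filter.Eventually.of_forall fun s h1 h2 => absurd ⟨h1, h2⟩ h
  have F4 : ∀ᶠ s in 𝓝[>] (0 : ℝ), ∀ i ∈ Finset.range 10,
      mv t s (i + 3) < mv t s i + Real.pi →
      mv t s (i + 5) < mv t s (i + 2) + Real.pi →
      (Dd q t i (i + 3) s < Dd q t i (i + 1) s ∨
      Dd q t (i + 2) (i + 5) s < Dd q t (i + 4) (i + 5) s ∨
      Dd q t i (i + 3) s + Dd q t (i + 2) (i + 5) s <
        101 / 100 * Dd q t (i + 2) (i + 3) s + Dd q t i (i + 5) s ∨
      Dd q t (i + 1) (i + 2) s * Dd q t (i + 3) (i + 4) s <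
        101 / 100 * (Dd q t i (i + 1) s * Dd q t (i + 4) (i + 5) s)) :=
    (Filter.eventually_all_finset _).2 fun i _ => E4 i
  obtain ⟨s, ⟨g1, g2⟩, g3, g4⟩ := ((F1.and F2).and (F3.and F4)).exists
  have hmv := mv_add t hper s
  have hqmv : ∀ i, q (mv t s (i + 10)) = q (mv t s i) := fun i => by
    rw [hmv i]; exact hq.per _
  refine hplanar (P K) hPcv hPc h0 hK.cen (mv t s) (fun i => q (mv t s i)) ?_
  refine ⟨?_, hmv, hqmv, ?_, ?_, ?_, ?_, ?_⟩
  · refine strictMono_nat_of_lt_succ ?_
    refine ind10 (fun i hi => g1 i (Finset.mem_range.2 hi)) ?_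
    intro i hi
    have e1 := hmv i
    have e2 : mv t s (i + 10 + 1) = mv t s (i + 1) + 2 * Real.pi := hmv (i + 1)
    rw [e1, e2]
    linarith
  · intro i
    exact ⟨r (mv t s i), hr _, hqr _⟩
  · intro i
    exact ⟨subset_closure (hq.mem _), hq.nint _⟩
  · suffices h : ∀ i, ∀ j, i < j → j < i + 10 → mv t s j ≠ mv t s i + Real.pi from
      fun i j => h i j
    refine ind10 (fun i hi j h1 h2 => g2 i (Finset.mem_range.2 hi) j
      (Finset.mem_range.2 (by omega)) h1 h2) ?_
    intro i hi j h1 h2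
    obtain ⟨k, rfl⟩ : ∃ k, j = k + 10 := ⟨j - 10, by omega⟩
    have := hi k (by omega) (by omega)
    rw [hmv i, hmv k]
    intro hcon
    apply this
    linarith
  · suffices h : ∀ i, ∀ j, i + 2 ≤ j → j ≤ i + 8 → mv t s (j + 1) < mv t s i + Real.pi →
        det (q (mv t s i)) (q (mv t s (j + 1))) <
          max (det (q (mv t s i)) (q (mv t s (i + 1))))
            (det (q (mv t s j)) (q (mv t s (j + 1)))) from fun i j => h i j
    refine ind10 (fun i hi j h1 h2 h3 => g3 i (Finset.mem_range.2 hi) j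
      (Finset.mem_range.2 (by omega)) h1 h2 h3) ?_
    intro i hi j h1 h2 h3
    obtain ⟨k, rfl⟩ : ∃ k, j = k + 10 := ⟨j - 10, by omega⟩
    have e1 : mv t s (k + 10 + 1) = mv t s (k + 1) + 2 * Real.pi := hmv (k + 1)
    have e2 : q (mv t s (k + 10 + 1)) = q (mv t s (k + 1)) := hqmv (k + 1)
    have e3 : q (mv t s (i + 10 + 1)) = q (mv t s (i + 1)) := hqmv (i + 1)
    rw [e2, e3, hqmv i, hqmv k]
    refine hi k (by omega) (by omega) ?_
    rw [e1, hmv i] at h3
    linarith
  · suffices h : ∀ i, mv t s (i + 3) < mv t s i + Real.pi →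
      mv t s (i + 5) < mv t s (i + 2) + Real.pi →
      (Dd q t i (i + 3) s < Dd q t i (i + 1) s ∨
      Dd q t (i + 2) (i + 5) s < Dd q t (i + 4) (i + 5) s ∨
      Dd q t i (i + 3) s + Dd q t (i + 2) (i + 5) s <
        101 / 100 * Dd q t (i + 2) (i + 3) s + Dd q t i (i + 5) s ∨
      Dd q t (i + 1) (i + 2) s * Dd q t (i + 3) (i + 4) s <
        101 / 100 * (Dd q t i (i + 1) s * Dd q t (i + 4) (i + 5) s)) from fun i => h i
    refine ind10 (fun i hi => g4 i (Finset.mem_range.2 hi)) ?_
    intro i hi h1 h2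
    have a2 : mv t s (i + 10 + 2) = mv t s (i + 2) + 2 * Real.pi := hmv (i + 2)
    have a3 : mv t s (i + 10 + 3) = mv t s (i + 3) + 2 * Real.pi := hmv (i + 3)
    have a5 : mv t s (i + 10 + 5) = mv t s (i + 5) + 2 * Real.pi := hmv (i + 5)
    have b0 := hqmv i
    have b1 : q (mv t s (i + 10 + 1)) = q (mv t s (i + 1)) := hqmv (i + 1)
    have b2 : q (mv t s (i + 10 + 2)) = q (mv t s (i + 2)) := hqmv (i + 2)
    have b3 : q (mv t s (i + 10 + 3)) = q (mv t s (i + 3)) := hqmv (i + 3)
    have b4 : q (mv t s (i + 10 + 4)) = q (mv t s (i + 4)) := hqmv (i + 4)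
    have b5 : q (mv t s (i + 10 + 5)) = q (mv t s (i + 5)) := hqmv (i + 5)
    have h3 := hi (by rw [a3, hmv i] at h1; linarith) (by rw [a5, a2] at h2; linarith)
    simp only [Dd] at h3 ⊢
    rw [b0, b1, b2, b3, b4, b5]
    exact h3

end Pool.Agent.H221.TW
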