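import Pool.Agent.H221.TW.Disp
import Pool.Agent.H292.TW.Chk3

/-!
Project TW (helper221): from the checked case trees to the planar lemma.
-/

set_option autoImplicit false

namespace Pool.Agent.H221.TW

open Pool.Agent.H332.HT (V2 det)
open Pool.Agent.H490.TW.PB (Hyp)
open Pool.Agent.H292.TW.Chk (Cfg Holds St Tr chk chk_sound)

theorem cfg_of {Q : Set V2} {th : ℕ → ℝ} {p : ℕ → V2} (h : Hyp Q th p) :
    Cfg (fun i j => det (p i) (p j)) where
  anti := fun i j => Pool.Agent.H490.TW.PB.det_swap _ _
  plu := fun a b c d => Pool.Agent.H490.TW.PB.pluecker _ _ _ _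
  per := fun i j => by
    show det (p (i + 10)) (p j) = det (p i) (p j)
    rw [h.ch.pper]
  gen := fun i j hi hj hij => by
    rcases Nat.lt_or_gt_of_ne hij with h1 | h1
    · rcases Pool.Agent.H490.TW.PB.sgn h h1 (by omega) with h2 | h2
      · right
        rw [Pool.Agent.H490.TW.PB.det_swap]
        linarith
      · left
        exact h2
    · rcases Pool.Agent.H490.TW.PB.sgn h h1 (by omega) with h2 | h2
      · left
        rw [Pool.Agent.H490.TW.PB.det_swap]
        linarith
      · right
        exact h2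
  ord := fun i m m' n h1 h2 h3 h4 =>
    Pool.Agent.H490.TW.PB.pos_mono h (by omega : i ≤ i + m) (by omega : i + m < i + m')
      (by omega : i + m' ≤ i + n) (by omega : i + n < i + 10) h4
  sup := fun a => Pool.Agent.H490.TW.PB.cent h a
  pair := fun i k h1 h2 h3 => by
    have h4 := (Pool.Agent.H490.TW.PB.pos_iff h (by omega : i < i + k + 1)
      (by omega : i + k + 1 < i + 10)).1 h3
    exact lt_max_iff.1 (h.ch.pair i (i + k) (by omega) (by omega) h4)
  ch3 := fun i h1 h2 => by
    have h3 := (Pool.Agent.H490.TW.PB.pos_iff h (by omega : i < i + 3)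
      (by omega : i + 3 < i + 10)).1 h1
    have h4 := (Pool.Agent.H490.TW.PB.pos_iff h (by omega : i + 2 < i + 5)
      (by omega : i + 5 < i + 2 + 10)).1 h2
    exact h.ch.ch3 i h3 h4

/-- the mask contains only pairs which are positive for the counts `v` -/
def maskOk (v : List ℕ) (mask : ℕ) : Bool :=
  (List.range 10).all fun i => (List.range 10).all fun j =>
    !(Nat.testBit mask (10 * i + j)) ||
      (!(Nat.beq i j) && Nat.ble ((j + 10 - i) % 10) (v.getD i 0))

theorem cls_of (v : List ℕ) (mask : ℕ) (T : Tr) (hm : maskOk v mask = true)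
    (hT : chk T ⟨mask, [], [], [], [], []⟩ = true) (Q : Set V2) (th : ℕ → ℝ) (p : ℕ → V2)
    (h : Hyp Q th p) (hv : HV th v) : False := by
  refine chk_sound (cfg_of h) T _ hT ⟨?_, ?_, ?_, ?_, ?_, ?_⟩
  · intro i j hij
    simp only [Pool.Agent.H292.TW.Chk.pos, Bool.and_eq_true, Nat.blt_eq] at hij
    obtain ⟨hi, hj, hb⟩ := hij
    simp only [maskOk, List.all_eq_true, List.mem_range] at hm
    have h1 := hm i hi j hj
    rw [hb] at h1
    simp only [Bool.not_true, Bool.false_or, Bool.and_eq_true, Bool.not_eq_true', Nat.ble_eq] at h1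
    obtain ⟨h2, h3⟩ := h1
    have hne : i ≠ j := by
      intro hc
      subst hc
      simp at h2
    have h4 := (hv i hi).1
    show 0 < det (p i) (p j)
    rcases Nat.lt_or_gt_of_ne hne with h5 | h5
    · have h6 : (j + 10 - i) % 10 = j - i := by omega
      rw [h6] at h3
      refine Pool.Agent.H490.TW.PB.pos h h5 (lt_of_le_of_lt (h.ch.mono.monotone ?_) h4)
      omega
    · have h6 : (j + 10 - i) % 10 = j + 10 - i := by omega
      rw [h6] at h3
      have h7 := Pool.Agent.H490.TW.PB.pos h (by omega : i < j + 10)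
        (lt_of_le_of_lt (h.ch.mono.monotone (by omega)) h4)
      rw [h.ch.pper] at h7
      exact h7
  · intro q hq; simp at hq
  · intro q hq; simp at hq
  · intro q hq; simp at hq
  · intro q hq; simp at hq
  · intro q hq; simp at hq

end Pool.Agent.H221.TW
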