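import Pool.Agent.H221.TW.Stm

/-!
Project TW (helper221): case I from the pair lemma, the three-arc lemma and the planar lemma.
-/

set_option autoImplicit false

namespace Pool.Agent.H221.TW

open Pool.Agent.H332.HT (V2 V3 det P IP T C Full Good Bi)
open Pool.Agent.H165.HW (GB Par)

theorem caseI (hpair : S_pair) (hch3 : S_ch3) (hbic : S_bic) (hplanar : S_planar)
    (hpar : S_par) (hbas : S_bas) (hred : S_red) : S_I := by
  intro K hK hsep hful
  obtain ⟨q, r, hq, hr, hrp, hqr⟩ := hpar K hK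
  obtain ⟨hPc, hPcv, h0, -, -⟩ := hbas K hK
  refine hred K hK q hq ?_ 0 ?_
  · intro t ht
    exact hq.nint t (hful _ ht)
  rintro ⟨t, hmono, ht0, hper, hbad⟩
  have hper0 : ∀ i, t (i + 5) < t i + 2 * Real.pi := by
    intro i
    rw [← hper i]
    exact hmono (by omega)
  refine hplanar (P K) hPcv hPc h0 hK.cen t (fun i => q (t i)) ?_
  refine ⟨hmono, hper, ?_, ?_, ?_, ?_, ?_⟩
  · intro i
    show q (t (i + 10)) = q (t i)
    rw [hper i]
    exact hq.per _
  · intro i
    exact ⟨r (t i), hr _, hqr _⟩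
  · intro i
    refine ⟨subset_closure (hq.mem _), hq.nint _⟩
  · intro i j hij hji hlt
    by_contra hcon
    rw [not_lt, max_le_iff] at hcon
    have h1 : t (i + 1) < t j := hmono (by omega)
    obtain ⟨hb1, hb2⟩ := hpair K hK q hq (t i) (t (i + 1)) (t j) (t (j + 1))
      (hmono (by omega)).le h1 (hmono (by omega)).le hlt hcon.1 hcon.2 (hbad i) (hbad j)
    exact hbic K hK hsep q hq (t i) (t (i + 1)) (t j) (t (j + 1))
      (hmono (by omega)).le h1 (hmono (by omega)).le hlt hb1 hb2
  · intro i h3 h5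
    by_contra hcon
    push Not at hcon
    obtain ⟨c1, c2, c3, c4⟩ := hcon
    obtain ⟨hb1, hb2⟩ := hch3 K hK q hq (t i) (t (i + 1)) (t (i + 2)) (t (i + 3)) (t (i + 4))
      (t (i + 5)) (hmono (by omega)).le (hmono (by omega)) (hmono (by omega)).le
      (hmono (by omega)) (hmono (by omega)).le h3 h5 (hper0 i) c1 c2 c3 c4 (hbad i) (hbad (i + 2))
      (hbad (i + 4))
    exact hbic K hK hsep q hq (t i) (t (i + 1)) (t (i + 2)) (t (i + 3))
      (hmono (by omega)).le (hmono (by omega)) (hmono (by omega)).le h3 hb1 hb2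

end Pool.Agent.H221.TW
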