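import Pool.Agent.H165.HW.Defs

/-!
Project TW (helper221): every convex body of `ℝ³` is illuminated by twelve directions
(page MP_eba1ef_gt, Hadwiger's covering problem).  List of statements.  Everything lives in
`V3 = (ℝ × ℝ) × ℝ` until the last step.
-/

set_option autoImplicit false

namespace Pool.Agent.H221.TW

open Pool.Agent.H332.HT (V2 V3 det P IP T C Full Good Bi)
open Pool.Agent.H165.HW (GB Par)

/-- twelve directions illuminate K -/
def Lit12 (K : Set V3) : Prop :=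
  ∃ L : Fin 12 → V3, ∀ x ∈ K, x ∉ interior K → ∃ i, L i ∈ C K x

/-! ### the planar lemma -/

/-- the labels of a chain of ten touching bad arcs with division points `p i` -/
structure Chain (Q : Set V2) (th : ℕ → ℝ) (p : ℕ → V2) : Prop where
  mono : StrictMono th
  per : ∀ i, th (i + 10) = th i + 2 * Real.pi
  pper : ∀ i, p (i + 10) = p i
  pol : ∀ i, ∃ r : ℝ, 0 < r ∧ p i = (r * Real.cos (th i), r * Real.sin (th i))
  fr : ∀ i, p i ∈ frontier Q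
  /-- the pair lemma, for two arcs which do not touch -/
  pair : ∀ i j, i + 2 ≤ j → j ≤ i + 8 → th (j + 1) < th i + Real.pi →
    det (p i) (p (j + 1)) < max (det (p i) (p (i + 1))) (det (p j) (p (j + 1)))
  /-- helper786's lemma CH3 for the arcs i, i+2, i+4 -/
  ch3 : ∀ i, th (i + 3) < th i + Real.pi → th (i + 5) < th (i + 2) + Real.pi →
    det (p i) (p (i + 3)) < det (p i) (p (i + 1)) ∨
    det (p (i + 2)) (p (i + 5)) < det (p (i + 4)) (p (i + 5)) ∨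
    det (p (i + 3) - p (i + 5)) (p (i + 2) - p i) ≤ 0 ∨
    det (p (i + 1)) (p (i + 2)) * det (p (i + 3)) (p (i + 4)) ≤
      det (p i) (p (i + 1)) * det (p (i + 4)) (p (i + 5))

/-- PLANAR (helper768, with the label CH3 of helper786): there is no such chain if
`-Q ⊆ 3.1 Q` -/
def S_planar : Prop := ∀ Q : Set V2, Convex ℝ Q → IsCompact Q → (0 : V2) ∈ interior Q →
  (∀ x ∈ Q, -((1 / (31 / 10 : ℝ)) • x) ∈ Q) → ∀ (th : ℕ → ℝ) (p : ℕ → V2), Chain Q th p → False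

/-! ### case I -/

/-- PAIR (helper165) -/
def S_pair : Prop := ∀ K : Set V3, GB (31 / 10) K → ∀ q : ℝ → V2, Par K q →
  ∀ a b c d : ℝ, a ≤ b → b < c → c ≤ d → d < a + Real.pi →
  det (q a) (q b) ≤ det (q a) (q d) → det (q c) (q d) ≤ det (q a) (q d) →
  ¬ Good K q a b → ¬ Good K q c d → Bi K q a b ∧ Bi K q c d

/-- CH3 (helper786): three arcs.  Proof: `e₁ = a₁`, `e₂ = (1-ε)(a₂ - a₁)`, `e₃ = κ b₃` with
`κ = [a₂-a₁, b₂]/[b₂ b₃]` (if `κ ≤ 0` the pair lemma applies to the first two arcs). -/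
def S_ch3 : Prop := ∀ K : Set V3, GB (31 / 10) K → ∀ q : ℝ → V2, Par K q →
  ∀ a₁ b₁ a₂ b₂ a₃ b₃ : ℝ, a₁ ≤ b₁ → b₁ < a₂ → a₂ ≤ b₂ → b₂ < a₃ → a₃ ≤ b₃ →
  b₂ < a₁ + Real.pi → b₃ < a₂ + Real.pi → b₃ < a₁ + 2 * Real.pi →
  det (q a₁) (q b₁) ≤ det (q a₁) (q b₂) → det (q a₃) (q b₃) ≤ det (q a₂) (q b₃) →
  0 < det (q b₂ - q b₃) (q a₂ - q a₁) →
  det (q a₁) (q b₁) * det (q a₃) (q b₃) < det (q b₁) (q a₂) * det (q b₂) (q a₃) →
  ¬ Good K q a₁ b₁ → ¬ Good K q a₂ b₂ → ¬ Good K q a₃ b₃ → Bi K q a₁ b₁ ∧ Bi K q a₂ b₂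

/-- BAS: facts about the shadow -/
def S_bas : Prop := ∀ K : Set V3, GB (31 / 10) K →
  IsCompact (P K) ∧ Convex ℝ (P K) ∧ (0 : V2) ∈ IP K ∧
  (∀ p ∈ IP K, ∃ z : ℝ, ((p, z) : V3) ∈ interior K) ∧ (∀ x ∈ interior K, x.1 ∈ IP K)

/-- PAR: a polar parametrisation of the boundary of the shadow -/
def S_par : Prop := ∀ K : Set V3, GB (31 / 10) K → ∃ (q : ℝ → V2) (r : ℝ → ℝ), Par K q ∧
  (∀ t, 0 < r t) ∧ (∀ t, r (t + 2 * Real.pi) = r t) ∧
  ∀ t, q t = (r t * Real.cos t, r t * Real.sin t)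

/-- OPN: goodness is open -/
def S_opn : Prop := ∀ K : Set V3, GB (31 / 10) K → ∀ q : ℝ → V2, Par K q → ∀ a b : ℝ, a ≤ b →
  Good K q a b → ∃ ε : ℝ, 0 < ε ∧ Good K q (a - ε) (b + ε)

/-- PT: a fibre which is not full is good -/
def S_pt : Prop := ∀ K : Set V3, GB (31 / 10) K → ∀ q : ℝ → V2, Par K q → ∀ t : ℝ, ¬ Full K (q t) →
  Good K q t t

/-- RED (helper179, `Pool.Agent.H179.HW.reduction` with `N = 10`) -/
def S_red : Prop := ∀ K : Set V3, GB (31 / 10) K → ∀ q : ℝ → V2, Par K q → (∀ t, ¬ Full K (q t)) →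
  ∀ t₀ : ℝ, (¬ ∃ t : ℕ → ℝ, StrictMono t ∧ t 0 = t₀ ∧ (∀ i, t (i + 10) = t i + 2 * Real.pi) ∧
    ∀ i, ¬ Good K q (t i) (t (i + 1))) → Lit12 K

/-- the colours are separated: a line through `0` separates the top points from the bottom
points in the boundary of the shadow, or there are no top points at all -/
def Sep (K : Set V3) : Prop :=
  (∃ m : V2 →ₗ[ℝ] ℝ, m ≠ 0 ∧ (∀ p : V2, ((p, 1) : V3) ∈ K → p ∉ IP K → m p ≤ 0) ∧
    (∀ p : V2, ((p, -1) : V3) ∈ K → p ∉ IP K → 0 ≤ m p)) ∨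
  (∀ p : V2, ((p, 1) : V3) ∈ K → p ∈ IP K)

/-- BIC: two bichromatic arcs which do not touch have a hull of at least a half-turn -/
def S_bic : Prop := ∀ K : Set V3, GB (31 / 10) K → Sep K → ∀ q : ℝ → V2, Par K q →
  ∀ a b c d : ℝ, a ≤ b → b < c → c ≤ d → d < a + Real.pi → Bi K q a b → Bi K q c d → False

/-- I: case I -/
def S_I : Prop := ∀ K : Set V3, GB (31 / 10) K → Sep K → (∀ p : V2, Full K p → p ∈ IP K) → Lit12 K

/-! ### an axis -/

/-- `y` lies over the interior of the shadow (projection along `v`) -/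
def Ov (K : Set V3) (v y : V3) : Prop := ∃ s : ℝ, y + s • v ∈ interior K

/-- an axis `[N, S]` for `K`: `h` is the height, `w` the centre of the projection along the axis,
`m` separates the top points from the bottom points in the boundary of the shadow (or there are no
top points), and no fibre over the boundary of the shadow is full -/
structure AX (K : Set V3) (h : V3 →ₗ[ℝ] ℝ) (N S w : V3) : Prop where
  memN : N ∈ K
  memS : S ∈ K
  hN : ∀ y ∈ K, h y ≤ h N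
  hS : ∀ y ∈ K, h S ≤ h y
  hlt : h S < h N
  seg : w ∈ openSegment ℝ N S
  int : w ∈ interior K
  cen : ∀ y ∈ K, w - (10 / (31 : ℝ)) • (y - w) ∈ K
  sep : (∃ m : V3 →ₗ[ℝ] ℝ, m N = m S ∧ (∃ v, h v = 0 ∧ m v ≠ 0) ∧
      (∀ y ∈ K, h y = h N → m y ≤ m N ∨ Ov K (N - S) y) ∧
      (∀ y ∈ K, h y = h S → m S ≤ m y ∨ Ov K (N - S) y)) ∨
    (∀ y ∈ K, h y = h N → Ov K (N - S) y)
  ful : ∀ y ∈ K, h y = h N → y - (N - S) ∈ K → Ov K (N - S) y

/-- AX: a body with an axis is illuminated (affine normalisation of case I) -/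
def S_ax : Prop := S_I → ∀ K : Set V3, IsCompact K → Convex ℝ K →
  ∀ (h : V3 →ₗ[ℝ] ℝ) (N S w : V3), AX K h N S w → Lit12 K

/-! ### the Minkowski centre and the choice of the axis -/

/-- Minkowski position: `0` is the centre, `lam` the measure of asymmetry, `n i` touching normals -/
structure MC (K : Set V3) (lam : ℝ) (n : Fin 4 → V3 →ₗ[ℝ] ℝ) (a : Fin 4 → ℝ) : Prop where
  cpt : IsCompact K
  cvx : Convex ℝ K
  int : (0 : V3) ∈ interior K
  one : 1 ≤ lam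
  three : lam ≤ 3
  cen : ∀ y ∈ K, -((1 / lam) • y) ∈ K
  nn : ∀ i, 0 ≤ a i
  sum : ∑ i, a i = 1
  zero : ∑ i, a i • n i = 0
  le : ∀ i, ∀ y ∈ K, n i y ≤ 1
  far : ∀ i, ∃ y ∈ K, n i y = -lam

/-- CEN: every body has a Minkowski centre -/
def S_cen : Prop := ∀ K : Set V3, IsCompact K → Convex ℝ K → (interior K).Nonempty →
  ∃ (o : V3) (lam : ℝ) (n : Fin 4 → V3 →ₗ[ℝ] ℝ) (a : Fin 4 → ℝ),
    MC ((fun x => x - o) '' K) lam n a

/-- PLC: a planar set has a centre of ratio two -/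
def S_plc : Prop := ∀ F : Set V3, IsCompact F → Convex ℝ F → F.Nonempty →
  ∀ f : V3 →ₗ[ℝ] ℝ, f ≠ 0 → ∀ c : ℝ, (∀ y ∈ F, f y = c) →
  ∃ p ∈ F, ∀ y ∈ F, p - (1 / (2 : ℝ)) • (y - p) ∈ F

/-- B: large asymmetry -/
def S_B : Prop := S_plc → ∀ (K : Set V3) (lam : ℝ) (n : Fin 4 → V3 →ₗ[ℝ] ℝ) (a : Fin 4 → ℝ),
  MC K lam n a → 2 < lam → ∃ (h : V3 →ₗ[ℝ] ℝ) (N S w : V3), AX K h N S w

/-- A: small asymmetry (tilt) -/
def S_A : Prop := S_plc → ∀ (K : Set V3) (lam : ℝ) (n : Fin 4 → V3 →ₗ[ℝ] ℝ) (a : Fin 4 → ℝ),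
  MC K lam n a → lam ≤ 2 → ∃ (h : V3 →ₗ[ℝ] ℝ) (N S w : V3), AX K h N S w

/-- TRA: translation -/
def S_tra : Prop := ∀ (K : Set V3) (o : V3), Lit12 ((fun x => x - o) '' K) → Lit12 K

/-- MAIN in V3 -/
def S_main : Prop := ∀ K : Set V3, IsCompact K → Convex ℝ K → (interior K).Nonempty → Lit12 K

/-- FIN: translates in Euclidean space -/
def S_fin : Prop := S_main → ∀ K : Set (EuclideanSpace ℝ (Fin 3)), Convex ℝ K → IsCompact K →
  (interior K).Nonempty → ∃ T : Finset (EuclideanSpace ℝ (Fin 3)), T.card ≤ 12 ∧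
    K ⊆ ⋃ t ∈ T, (fun x => t + x) '' interior K

theorem main (hcen : S_cen) (hplc : S_plc) (hA : S_A) (hB : S_B) (hax : S_ax) (hI : S_I)
    (htra : S_tra) : S_main := by
  intro K h1 h2 h3
  obtain ⟨o, lam, n, a, hM⟩ := hcen K h1 h2 h3
  refine htra K o ?_
  rcases le_or_gt lam 2 with hl | hl
  · obtain ⟨h, N, S, w, hx⟩ := hA hplc _ lam n a hM hl
    exact hax hI _ hM.cpt hM.cvx h N S w hx
  · obtain ⟨h, N, S, w, hx⟩ := hB hplc _ lam n a hM hl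
    exact hax hI _ hM.cpt hM.cvx h N S w hx

end Pool.Agent.H221.TW
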