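import Pool.Agent.H221.TW.Stm

/-!
Project TW (helper221): the planar lemma in generic position.
-/

set_option autoImplicit false

namespace Pool.Agent.H221.TW

open Pool.Agent.H332.HT (V2 V3 det)

/-- a chain in generic position (no two division points are antipodal), with labels which are
open conditions -/
structure ChainG (Q : Set V2) (th : ℕ → ℝ) (p : ℕ → V2) : Prop where
  mono : StrictMono th
  per : ∀ i, th (i + 10) = th i + 2 * Real.pi
  pper : ∀ i, p (i + 10) = p i
  pol : ∀ i, ∃ r : ℝ, 0 < r ∧ p i = (r * Real.cos (th i), r * Real.sin (th i))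
  fr : ∀ i, p i ∈ frontier Q
  gen : ∀ i j, i < j → j < i + 10 → th j ≠ th i + Real.pi
  pair : ∀ i j, i + 2 ≤ j → j ≤ i + 8 → th (j + 1) < th i + Real.pi →
    det (p i) (p (j + 1)) < max (det (p i) (p (i + 1))) (det (p j) (p (j + 1)))
  ch3 : ∀ i, th (i + 3) < th i + Real.pi → th (i + 5) < th (i + 2) + Real.pi →
    det (p i) (p (i + 3)) < det (p i) (p (i + 1)) ∨
    det (p (i + 2)) (p (i + 5)) < det (p (i + 4)) (p (i + 5)) ∨
    det (p i) (p (i + 3)) + det (p (i + 2)) (p (i + 5)) <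
      101 / 100 * det (p (i + 2)) (p (i + 3)) + det (p i) (p (i + 5)) ∨
    det (p (i + 1)) (p (i + 2)) * det (p (i + 3)) (p (i + 4)) <
      101 / 100 * (det (p i) (p (i + 1)) * det (p (i + 4)) (p (i + 5)))

/-- PLANARG: there is no chain in generic position if `-Q ⊆ 3.1 Q` -/
def S_planarG : Prop := ∀ Q : Set V2, Convex ℝ Q → IsCompact Q → (0 : V2) ∈ interior Q →
  (∀ x ∈ Q, -((1 / (31 / 10 : ℝ)) • x) ∈ Q) → ∀ (th : ℕ → ℝ) (p : ℕ → V2), ChainG Q th p → False

end Pool.Agent.H221.TW
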